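import Pool.Agent.H971R3.FV.Stmts3

/-! Task Vol: power mean inequality on the spheres and Fubini -/

set_option autoImplicit false

open MeasureTheory Set

namespace Pool.Agent.H3R3.FVVol

open Pool.Agent.H971R3.FV

theorem pow_est (d : ℕ) {a x : ℝ} (ha : 0 < a) (hx : 0 < x) :
    a ^ (d + 1) + (d + 1) * a ^ d * (x - a) ≤ x ^ (d + 1) := by
  have h1 := one_add_mul_le_pow (a := x / a - 1) (by
    have : 0 < x / a := by positivity
    linarith) (d + 1)
  have h2 : (1 + (x / a - 1)) = x / a := by ring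
  rw [h2, div_pow, le_div_iff₀ (by positivity)] at h1
  have h3 : (1 + ((d + 1 : ℕ) : ℝ) * (x / a - 1)) * a ^ (d + 1)
      = a ^ (d + 1) + (d + 1) * a ^ d * (x - a) := by
    push_cast
    field_simp
    ring
  rw [h3] at h1
  exact h1

theorem taskVol : TaskVol := by
  intro d L f φ hd hL hf hφ hfpos hφpos A hA
  set μ := (volume : Measure (EuclideanSpace ℝ (Fin (d + 1)))).toSphere with hμ
  have hμ0 : μ ≠ 0 := by
    rw [hμ]
    exact Measure.toSphere_ne_zero _
  have hμu : μ univ ≠ 0 := by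
    rw [Ne, Measure.measure_univ_eq_zero]
    exact hμ0
  have hμt : μ univ ≠ ⊤ := measure_ne_top μ univ
  have hm : 0 < μ.real univ := by
    rw [Measure.real]
    exact ENNReal.toReal_pos hμu hμt
  have hc1 : ∀ r, Continuous (fun u : Metric.sphere (0 : EuclideanSpace ℝ (Fin (d + 1))) 1 =>
      φ r u) := by
    intro r
    exact hφ.comp (by fun_prop : Continuous (fun u : Metric.sphere
      (0 : EuclideanSpace ℝ (Fin (d + 1))) 1 => (r, (u : EuclideanSpace ℝ (Fin (d + 1))))))
  have hi1 : ∀ r, Integrable (fun u : Metric.sphere (0 : EuclideanSpace ℝ (Fin (d + 1))) 1 =>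
      φ r u) μ := by
    intro r
    exact (hc1 r).integrable_of_hasCompactSupport (HasCompactSupport.of_compactSpace _)
  have hi2 : ∀ r (n : ℕ), Integrable (fun u : Metric.sphere (0 : EuclideanSpace ℝ (Fin (d + 1))) 1 =>
      φ r u ^ n) μ := by
    intro r n
    exact ((hc1 r).pow n).integrable_of_hasCompactSupport (HasCompactSupport.of_compactSpace _)
  have hAc : Continuous A := by
    have h1 : A = fun r => (∫ u : Metric.sphere (0 : EuclideanSpace ℝ (Fin (d + 1))) 1,
        φ r u ∂μ) / μ.real univ := by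
      ext r
      rw [eq_div_iff hm.ne']
      exact hA r
    rw [h1]
    apply Continuous.div_const
    have h2 := continuous_parametric_integral_of_continuous (μ := μ)
      (f := fun (r : ℝ) (u : Metric.sphere (0 : EuclideanSpace ℝ (Fin (d + 1))) 1) => φ r u)
      (hφ.comp (by fun_prop : Continuous (fun p : ℝ × Metric.sphere
        (0 : EuclideanSpace ℝ (Fin (d + 1))) 1 =>
          (p.1, (p.2 : EuclideanSpace ℝ (Fin (d + 1))))))) (s := univ) isCompact_univ
    simpa using h2
  have hpos : ∀ r ∈ Icc (0 : ℝ) L, ∀ u : Metric.sphere (0 : EuclideanSpace ℝ (Fin (d + 1))) 1,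
      0 < φ r u := by
    intro r hr u
    exact hφpos r hr u (by simp)
  have hApos : ∀ r ∈ Icc (0 : ℝ) L, 0 < A r := by
    intro r hr
    have h1 : 0 < ∫ u : Metric.sphere (0 : EuclideanSpace ℝ (Fin (d + 1))) 1, φ r u ∂μ := by
      rw [integral_pos_iff_support_of_nonneg (fun u => (hpos r hr u).le) (hi1 r)]
      have h2 : Function.support (fun u : Metric.sphere (0 : EuclideanSpace ℝ (Fin (d + 1))) 1 =>
          φ r u) = univ := by
        ext u
        simp [(hpos r hr u).ne']
      rw [h2]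
      exact pos_iff_ne_zero.2 hμu
    rw [← hA r] at h1
    exact (pos_iff_pos_of_mul_pos h1).2 hm
  refine ⟨hAc, hApos, ?_⟩
  have hpm : ∀ r ∈ Ioc (0 : ℝ) L, A r ^ (d + 1) * μ.real univ ≤
      ∫ u : Metric.sphere (0 : EuclideanSpace ℝ (Fin (d + 1))) 1, φ r u ^ (d + 1) ∂μ := by
    intro r hr
    have hr' : r ∈ Icc (0 : ℝ) L := ⟨hr.1.le, hr.2⟩
    have h1 : ∫ u : Metric.sphere (0 : EuclideanSpace ℝ (Fin (d + 1))) 1,
        (A r ^ (d + 1) + (d + 1) * A r ^ d * (φ r u - A r)) ∂μ ≤
        ∫ u : Metric.sphere (0 : EuclideanSpace ℝ (Fin (d + 1))) 1, φ r u ^ (d + 1) ∂μ := by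
      apply integral_mono
      · exact (integrable_const _).add (((hi1 r).sub (integrable_const _)).const_mul _)
      · exact hi2 r (d + 1)
      · intro u
        exact pow_est d (hApos r hr') (hpos r hr' u)
    have h2 : ∫ u : Metric.sphere (0 : EuclideanSpace ℝ (Fin (d + 1))) 1,
        (A r ^ (d + 1) + (d + 1) * A r ^ d * (φ r u - A r)) ∂μ = A r ^ (d + 1) * μ.real univ := by
      have hh : Integrable (fun u : Metric.sphere (0 : EuclideanSpace ℝ (Fin (d + 1))) 1 =>
          (d + 1) * A r ^ d * (φ r u - A r)) μ :=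
        ((hi1 r).sub (integrable_const _)).const_mul _
      rw [integral_add (integrable_const _) hh,
        integral_const_mul, integral_sub (hi1 r) (integrable_const _), ← hA r, integral_const,
        integral_const]
      simp only [smul_eq_mul]
      ring
    rw [h2] at h1
    exact h1
  have hgc : Continuous (fun r => A r ^ (d + 1) * f r ^ d) := by fun_prop
  have hL1 : ENNReal.ofReal (∫ r in (0 : ℝ)..L, A r ^ (d + 1) * f r ^ d) * μ univ =
      ∫⁻ r in Ioc (0 : ℝ) L, ENNReal.ofReal (A r ^ (d + 1) * f r ^ d) * μ univ := by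
    rw [intervalIntegral.integral_of_le hL.le, ofReal_integral_eq_lintegral_ofReal]
    · rw [lintegral_mul_const]
      exact hgc.measurable.ennreal_ofReal
    · exact (hgc.integrableOn_Icc (a := 0) (b := L)).mono_set Ioc_subset_Icc_self
    · filter_upwards [ae_restrict_mem measurableSet_Ioc] with r hr
      have h1 := hApos r ⟨hr.1.le, hr.2⟩
      have h2 := hfpos r hr
      positivity
  have hjc : Continuous (fun p : ℝ × Metric.sphere (0 : EuclideanSpace ℝ (Fin (d + 1))) 1 =>
      φ p.1 p.2 ^ (d + 1) * f p.1 ^ d) := by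
    have h1 : Continuous (fun p : ℝ × Metric.sphere (0 : EuclideanSpace ℝ (Fin (d + 1))) 1 =>
        φ p.1 p.2) := hφ.comp (by fun_prop : Continuous (fun p : ℝ × Metric.sphere
        (0 : EuclideanSpace ℝ (Fin (d + 1))) 1 =>
          (p.1, (p.2 : EuclideanSpace ℝ (Fin (d + 1))))))
    exact (h1.pow _).mul ((hf.comp continuous_fst).pow _)
  have hR1 : ∫⁻ p in Ioc (0 : ℝ) L ×ˢ univ, ENNReal.ofReal (φ p.1 p.2 ^ (d + 1) * f p.1 ^ d)
        ∂((volume : Measure ℝ).prod μ) =
      ∫⁻ r in Ioc (0 : ℝ) L, ∫⁻ u : Metric.sphere (0 : EuclideanSpace ℝ (Fin (d + 1))) 1,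
        ENNReal.ofReal (φ r u ^ (d + 1) * f r ^ d) ∂μ := by
    rw [← Measure.prod_restrict, Measure.restrict_univ, lintegral_prod]
    exact hjc.measurable.ennreal_ofReal.aemeasurable
  rw [hL1, hR1]
  apply setLIntegral_mono' measurableSet_Ioc
  intro r hr
  have hr' : r ∈ Icc (0 : ℝ) L := ⟨hr.1.le, hr.2⟩
  have h1 := hApos r hr'
  have h2 := hfpos r hr
  rw [← ofReal_integral_eq_lintegral_ofReal ((hi2 r (d + 1)).mul_const _)
    (by
      filter_upwards with u
      have := hpos r hr' u
      positivity)]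
  have h3 : μ univ = ENNReal.ofReal (μ.real univ) := by
    rw [Measure.real, ENNReal.ofReal_toReal hμt]
  rw [h3, ← ENNReal.ofReal_mul (by positivity)]
  apply ENNReal.ofReal_le_ofReal
  rw [integral_mul_const]
  have h4 := mul_le_mul_of_nonneg_right (hpm r hr) (by positivity : 0 ≤ f r ^ d)
  linarith

end Pool.Agent.H3R3.FVVol
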