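import Pool.Agent.H862R3.Prim.Stmts

/-! Task F: finitely generated soluble groups of finite exponent are finite. -/

set_option autoImplicit false

namespace Pool.Agent.H3R3.PV

open Pool.Agent.H862R3.Prim

theorem map_derivedSeries_commutator (G : Type) [Group G] (d : ℕ) :
    (derivedSeries (commutator G) d).map (commutator G).subtype = derivedSeries G (d + 1) := by
  induction d with
  | zero =>
    rw [derivedSeries_zero, derivedSeries_succ, derivedSeries_zero, ← MonoidHom.range_eq_map,
      Subgroup.range_subtype]
    rfl
  | succ d ih =>
    rw [derivedSeries_succ, derivedSeries_succ G (d + 1), Subgroup.map_commutator, ih]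

theorem taskF : TaskF := by
  intro d
  induction d with
  | zero =>
    intro n _ G _ _ _ hd
    rw [derivedSeries_zero] at hd
    have : Subsingleton G := by
      constructor
      intro a b
      have ha : a ∈ (⊤ : Subgroup G) := Subgroup.mem_top a
      have hb : b ∈ (⊤ : Subgroup G) := Subgroup.mem_top b
      rw [hd, Subgroup.mem_bot] at ha hb
      rw [ha, hb]
    infer_instance
  | succ d ih =>
    intro n hn G _ _ hG hd
    have hfin : Finite (Abelianization G) := by
      have : Group.FG (Abelianization G) := by
        unfold Abelianization
        infer_instance
      apply CommGroup.finite_of_fg_torsion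
      intro x
      rw [isOfFinOrder_iff_pow_eq_one]
      refine ⟨n, hn, ?_⟩
      obtain ⟨g, rfl⟩ := QuotientGroup.mk_surjective x
      have : ((g ^ n : G) : G ⧸ commutator G) = 1 := by rw [hG]; rfl
      exact this
    have hfin' : Finite (G ⧸ commutator G) := hfin
    have hfi : (commutator G).FiniteIndex := Subgroup.finiteIndex_of_finite_quotient
    have hfg : Group.FG (commutator G) := Subgroup.fg_of_index_ne_zero _
    have h1 : derivedSeries (commutator G) d = ⊥ := by
      have h2 := map_derivedSeries_commutator G d
      rw [hd] at h2
      exact (Subgroup.map_eq_bot_iff_of_injective _ (Subgroup.subtype_injective _)).1 h2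
    have h3 : Finite (commutator G) := by
      apply ih n hn (commutator G)
      · intro g
        apply Subtype.ext
        simp [hG]
      · exact h1
    exact Finite.of_subgroup_quotient (commutator G)

end Pool.Agent.H3R3.PV
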