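import Pool.Agent.H197R3.SF.Stmts

/-! Task L2: solvability in weighted `L²` -/

set_option autoImplicit false

namespace Pool.Agent.H3R3.SF

open MeasureTheory Filter Topology Set Pool.Agent.H197R3.SF
open scoped Pointwise Matrix ComplexConjugate

/-- the space `L²(ℝ)` -/
noncomputable abbrev L := Lp ℂ 2 (volume : Measure ℝ)

theorem conv_congr (g : ℝ → ℂ) {u v : ℝ → ℂ} (h : u =ᵐ[volume] v) (t : ℝ) :
    ∫ s, g s * u (t - s) = ∫ s, g s * v (t - s) := by
  apply integral_congr_ae
  have h1 := (quasiMeasurePreserving_sub_left (volume : Measure ℝ) t).ae_eq h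
  filter_upwards [h1] with s hs
  simp only [Function.comp] at hs
  rw [hs]

section conv

variable (hY : TaskYoung)

include hY

theorem conv_add (g : ℝ → ℂ) (hg : Integrable g) (u v : ℝ → ℂ) (hu : MemLp u 2 volume)
    (hv : MemLp v 2 volume) :
    (fun t => ∫ s, g s * (u (t - s) + v (t - s))) =ᵐ[volume]
      fun t => (∫ s, g s * u (t - s)) + ∫ s, g s * v (t - s) := by
  filter_upwards [(hY g u hg hu).2.2, (hY g v hg hv).2.2] with t h1 h2
  rw [← integral_add h1 h2]
  congr 1
  ext s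
  ring

/-- convolution as an operator -/
noncomputable def cv (g : ℝ → ℂ) (hg : Integrable g) : L →L[ℂ] L :=
  LinearMap.mkContinuous
    { toFun := fun u => (hY g u hg (Lp.memLp u)).1.toLp _
      map_add' := by
        intro u v
        apply Lp.ext
        have h1 := (hY g (u + v : L) hg (Lp.memLp _)).1.coeFn_toLp
        have h2 := (hY g u hg (Lp.memLp _)).1.coeFn_toLp
        have h3 := (hY g v hg (Lp.memLp _)).1.coeFn_toLp
        have h4 := Lp.coeFn_add ((hY g u hg (Lp.memLp u)).1.toLp _)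
          ((hY g v hg (Lp.memLp v)).1.toLp _)
        have h5 := conv_add hY g hg u v (Lp.memLp u) (Lp.memLp v)
        have h6 := Lp.coeFn_add u v
        filter_upwards [h1, h2, h3, h4, h5] with t a1 a2 a3 a4 a5
        rw [a1, a4, Pi.add_apply, a2, a3, ← a5, conv_congr g h6 t]
        rfl
      map_smul' := by
        intro c u
        apply Lp.ext
        have h1 := (hY g (c • u : L) hg (Lp.memLp _)).1.coeFn_toLp
        have h2 := (hY g u hg (Lp.memLp _)).1.coeFn_toLp
        have h4 := Lp.coeFn_smul c ((hY g u hg (Lp.memLp u)).1.toLp _)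
        have h6 := Lp.coeFn_smul c u
        filter_upwards [h1, h2, h4] with t a1 a2 a4
        rw [a1]
        simp only [RingHom.id_apply]
        rw [a4, Pi.smul_apply, a2, conv_congr g h6 t, smul_eq_mul, ← integral_const_mul]
        congr 1
        ext s
        simp only [Pi.smul_apply, smul_eq_mul]
        ring }
    (∫ s, ‖g s‖) (by
      intro u
      have h1 := (hY g u hg (Lp.memLp u)).2.1
      simp only [LinearMap.coe_mk, AddHom.coe_mk]
      rw [Lp.norm_toLp, Lp.norm_def]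
      exact h1)

theorem cv_norm (g : ℝ → ℂ) (hg : Integrable g) (u : L) :
    ‖cv hY g hg u‖ ≤ (∫ s, ‖g s‖) * ‖u‖ := by
  have h1 := (hY g u hg (Lp.memLp u)).2.1
  have h2 : cv hY g hg u = (hY g u hg (Lp.memLp u)).1.toLp _ := rfl
  rw [h2, Lp.norm_toLp, Lp.norm_def]
  exact h1

theorem cv_ae (g : ℝ → ℂ) (hg : Integrable g) (u : L) :
    cv hY g hg u =ᵐ[volume] fun t => ∫ s, g s * u (t - s) :=
  (hY g u hg (Lp.memLp u)).1.coeFn_toLp

theorem cv_sub (g g' : ℝ → ℂ) (hg : Integrable g) (hg' : Integrable g') (u : L) :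
    cv hY g hg u = cv hY g' hg' u + cv hY (fun s => g s - g' s) (hg.sub hg') u := by
  apply Lp.ext
  have h1 := cv_ae hY g hg u
  have h2 := cv_ae hY g' hg' u
  have h3 := cv_ae hY (fun s => g s - g' s) (hg.sub hg') u
  have h4 := Lp.coeFn_add (cv hY g' hg' u) (cv hY (fun s => g s - g' s) (hg.sub hg') u)
  filter_upwards [h1, h2, h3, h4, (hY g' u hg' (Lp.memLp u)).2.2,
    (hY (fun s => g s - g' s) u (hg.sub hg') (Lp.memLp u)).2.2] with t a1 a2 a3 a4 a5 a6
  rw [a1, a4, Pi.add_apply, a2, a3, ← integral_add a5 a6]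
  congr 1
  ext s
  ring

end conv

/-- restriction to the half line -/
noncomputable def pr : L →L[ℂ] L :=
  LinearMap.mkContinuous
    { toFun := fun u => ((Lp.memLp u).indicator (measurableSet_Ici (a := (0 : ℝ)))).toLp _
      map_add' := by
        intro u v
        apply Lp.ext
        have h1 := ((Lp.memLp (u + v : L)).indicator (measurableSet_Ici (a := (0 : ℝ)))).coeFn_toLp
        have h2 := ((Lp.memLp u).indicator (measurableSet_Ici (a := (0 : ℝ)))).coeFn_toLp
        have h3 := ((Lp.memLp v).indicator (measurableSet_Ici (a := (0 : ℝ)))).coeFn_toLp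
        have h4 := Lp.coeFn_add (((Lp.memLp u).indicator (measurableSet_Ici (a := (0 : ℝ)))).toLp _)
          (((Lp.memLp v).indicator (measurableSet_Ici (a := (0 : ℝ)))).toLp _)
        have h6 := Lp.coeFn_add u v
        filter_upwards [h1, h2, h3, h4, h6] with t a1 a2 a3 a4 a6
        rw [a1, a4, Pi.add_apply, a2, a3]
        by_cases ht : t ∈ Ici (0 : ℝ)
        · simp only [indicator_of_mem ht]
          rw [a6]
          rfl
        · simp only [indicator_of_notMem ht]
          simp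
      map_smul' := by
        intro c u
        apply Lp.ext
        have h1 := ((Lp.memLp (c • u : L)).indicator (measurableSet_Ici (a := (0 : ℝ)))).coeFn_toLp
        have h2 := ((Lp.memLp u).indicator (measurableSet_Ici (a := (0 : ℝ)))).coeFn_toLp
        have h4 := Lp.coeFn_smul c
          (((Lp.memLp u).indicator (measurableSet_Ici (a := (0 : ℝ)))).toLp _)
        have h6 := Lp.coeFn_smul c u
        filter_upwards [h1, h2, h4, h6] with t a1 a2 a4 a6
        rw [a1]
        simp only [RingHom.id_apply]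
        rw [a4, Pi.smul_apply, a2]
        by_cases ht : t ∈ Ici (0 : ℝ)
        · simp only [indicator_of_mem ht]
          rw [a6]
          rfl
        · simp only [indicator_of_notMem ht]
          simp }
    1 (by
      intro u
      simp only [LinearMap.coe_mk, AddHom.coe_mk]
      rw [Lp.norm_toLp, Lp.norm_def, one_mul]
      exact ENNReal.toReal_mono (Lp.eLpNorm_ne_top u) (eLpNorm_indicator_le _))

theorem pr_ae (u : L) : pr u =ᵐ[volume] (Ici (0 : ℝ)).indicator u :=
  ((Lp.memLp u).indicator (measurableSet_Ici (a := (0 : ℝ)))).coeFn_toLp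

theorem pr_norm (u : L) : ‖pr u‖ ≤ ‖u‖ := by
  have h2 : pr u = ((Lp.memLp u).indicator (measurableSet_Ici (a := (0 : ℝ)))).toLp _ := rfl
  rw [h2, Lp.norm_toLp, Lp.norm_def]
  exact ENNReal.toReal_mono (Lp.eLpNorm_ne_top u) (eLpNorm_indicator_le _)

theorem pr_pr (u : L) : pr (pr u) = pr u := by
  apply Lp.ext
  filter_upwards [pr_ae u, pr_ae (pr u)] with t a1 a2
  rw [a2]
  by_cases ht : t ∈ Ici (0 : ℝ)
  · rw [indicator_of_mem ht]
  · rw [indicator_of_notMem ht, a1, indicator_of_notMem ht]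

/-! ## Abstract part -/

theorem coercive_solve {X : Type} [NormedAddCommGroup X] [InnerProductSpace ℂ X] [CompleteSpace X]
    (T P : X →L[ℂ] X) (hP : ∀ u, ‖P u‖ ≤ ‖u‖) (hPP : ∀ u, P (P u) = P u) (c : ℝ) (hc : 0 < c)
    (hT : ∀ w : X, c * ‖w‖ ^ 2 ≤ (inner ℂ w (T w)).re) (f : X) :
    ∃ u : X, P u = u ∧ P (T u) = P f := by
  set M : ℝ := ‖T‖ + c with hM
  have hMpos : 0 < M := by have := norm_nonneg T; linarith
  have hcM : c ≤ M := by have := norm_nonneg T; linarith
  set l : ℝ := c / M ^ 2 with hl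
  have hlpos : 0 < l := by positivity
  have hq : 0 ≤ 1 - c ^ 2 / M ^ 2 := by
    rw [sub_nonneg, div_le_one (by positivity)]
    exact pow_le_pow_left₀ hc.le hcM 2
  have hq1 : 1 - c ^ 2 / M ^ 2 < 1 := by
    have : 0 < c ^ 2 / M ^ 2 := by positivity
    linarith
  have hest : ∀ w : X, ‖w - (l : ℂ) • T w‖ ^ 2 ≤ (1 - c ^ 2 / M ^ 2) * ‖w‖ ^ 2 := by
    intro w
    rw [@norm_sub_sq ℂ]
    have h1 : RCLike.re (inner ℂ w ((l : ℂ) • T w)) = l * (inner ℂ w (T w)).re := by
      rw [inner_smul_right]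
      simp
    rw [h1, norm_smul]
    have h2 : ‖(l : ℂ)‖ = l := by
      rw [Complex.norm_real, Real.norm_of_nonneg hlpos.le]
    rw [h2]
    have h3 : ‖T w‖ ≤ M * ‖w‖ := by
      refine (T.le_opNorm w).trans ?_
      apply mul_le_mul_of_nonneg_right _ (norm_nonneg w)
      linarith
    have h4 : (l * ‖T w‖) ^ 2 ≤ l ^ 2 * (M ^ 2 * ‖w‖ ^ 2) := by
      rw [mul_pow]
      apply mul_le_mul_of_nonneg_left _ (by positivity)
      rw [← mul_pow]
      exact pow_le_pow_left₀ (norm_nonneg _) h3 2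
    have h5 : l * (c * ‖w‖ ^ 2) ≤ l * (inner ℂ w (T w)).re :=
      mul_le_mul_of_nonneg_left (hT w) hlpos.le
    have h6 : l ^ 2 * (M ^ 2 * ‖w‖ ^ 2) = c ^ 2 / M ^ 2 * ‖w‖ ^ 2 := by
      rw [hl]
      field_simp
    have h7 : l * (c * ‖w‖ ^ 2) = c ^ 2 / M ^ 2 * ‖w‖ ^ 2 := by
      rw [hl]
      field_simp
    linarith
  set B : X →L[ℂ] X := P ∘L (ContinuousLinearMap.id ℂ X - (l : ℂ) • T) with hB
  have hBapp : ∀ w, B w = P (w - (l : ℂ) • T w) := by
    intro w
    simp [hB]
  have hBn : ‖B‖ < 1 := by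
    have h1 : ‖B‖ ≤ Real.sqrt (1 - c ^ 2 / M ^ 2) := by
      apply ContinuousLinearMap.opNorm_le_bound _ (Real.sqrt_nonneg _)
      intro w
      rw [hBapp]
      refine (hP _).trans ?_
      apply le_of_sq_le_sq _ (by positivity)
      rw [mul_pow, Real.sq_sqrt hq]
      exact hest w
    refine h1.trans_lt ?_
    rw [Real.sqrt_lt' one_pos]
    simpa using hq1
  obtain ⟨U, hU⟩ := isUnit_one_sub_of_norm_lt_one hBn
  let u : X := (↑U⁻¹ : X →L[ℂ] X) ((l : ℂ) • P f)
  have hu : u - B u = (l : ℂ) • P f := by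
    have h1 : (↑U : X →L[ℂ] X) * ↑U⁻¹ = 1 := U.mul_inv
    have h2 : (↑U : X →L[ℂ] X) u = (l : ℂ) • P f := by
      have h3 := congrArg (fun S : X →L[ℂ] X => S ((l : ℂ) • P f)) h1
      exact h3
    rw [hU] at h2
    simpa using h2
  have hu2 : u = P (u - (l : ℂ) • T u + (l : ℂ) • f) := by
    rw [map_add, ← hBapp, map_smul]
    rw [← hu]
    abel
  have hu3 : P u = u := by
    conv_rhs => rw [hu2]
    conv_lhs => rw [hu2]
    rw [hPP]
  refine ⟨u, hu3, ?_⟩
  have h4 : u = u - (l : ℂ) • P (T u) + (l : ℂ) • P f := by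
    conv_lhs => rw [hu2]
    rw [map_add, map_sub, map_smul, map_smul, hu3]
  have h5 : (l : ℂ) • P (T u) = (l : ℂ) • P f := by
    have h6 : (l : ℂ) • P f - (l : ℂ) • P (T u) = 0 := by
      have : u = u + ((l : ℂ) • P f - (l : ℂ) • P (T u)) := by
        conv_lhs => rw [h4]
        abel
      exact (left_eq_add.1 this)
    exact (sub_eq_zero.1 h6).symm
  have hl0 : (l : ℂ) ≠ 0 := by
    exact_mod_cast hlpos.ne'
  exact (smul_right_injective X hl0) h5

/-! ## The operator -/

/-- the Hilbert space `L²(ℝ)^n` -/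
noncomputable abbrev X (n : ℕ) := PiLp 2 (fun _ : Fin n => L)

/-- kernels -/
abbrev Ker (n : ℕ) := ℝ → Matrix (Fin n) (Fin n) ℂ

/-- identity plus convolution -/
noncomputable def op (hY : TaskYoung) {n : ℕ} (g : Ker n)
    (hg : ∀ i j, Integrable (fun t => g t i j)) : X n →L[ℂ] X n :=
  ((PiLp.continuousLinearEquiv 2 ℂ (fun _ : Fin n => L)).symm :
      (∀ _ : Fin n, L) →L[ℂ] X n) ∘L
    (ContinuousLinearMap.pi fun i => ContinuousLinearMap.proj i +
      ∑ j, cv hY (fun t => g t i j) (hg i j) ∘L ContinuousLinearMap.proj j) ∘L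
    ((PiLp.continuousLinearEquiv 2 ℂ (fun _ : Fin n => L)) : X n →L[ℂ] (∀ _ : Fin n, L))

theorem op_apply (hY : TaskYoung) {n : ℕ} (g : Ker n)
    (hg : ∀ i j, Integrable (fun t => g t i j)) (u : X n) (i : Fin n) :
    (op hY g hg u) i = u i + ∑ j, cv hY (fun t => g t i j) (hg i j) (u j) := by
  simp [op]

/-- the projection -/
noncomputable def prX (n : ℕ) : X n →L[ℂ] X n :=
  ((PiLp.continuousLinearEquiv 2 ℂ (fun _ : Fin n => L)).symm :
      (∀ _ : Fin n, L) →L[ℂ] X n) ∘L
    (ContinuousLinearMap.pi fun i => pr ∘L ContinuousLinearMap.proj i) ∘L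
    ((PiLp.continuousLinearEquiv 2 ℂ (fun _ : Fin n => L)) : X n →L[ℂ] (∀ _ : Fin n, L))

theorem prX_apply (n : ℕ) (u : X n) (i : Fin n) : (prX n u) i = pr (u i) := by
  simp [prX]

theorem prX_norm (n : ℕ) (u : X n) : ‖prX n u‖ ≤ ‖u‖ := by
  apply le_of_sq_le_sq _ (norm_nonneg _)
  rw [PiLp.norm_sq_eq_of_L2, PiLp.norm_sq_eq_of_L2]
  apply Finset.sum_le_sum
  intro i _
  rw [prX_apply]
  exact pow_le_pow_left₀ (norm_nonneg _) (pr_norm _) 2

theorem prX_prX (n : ℕ) (u : X n) : prX n (prX n u) = prX n u := by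
  apply PiLp.ext
  intro i
  rw [prX_apply, prX_apply, pr_pr]

theorem norm_sq_L (u : L) : ‖u‖ ^ 2 = ∫ t, ‖u t‖ ^ 2 := by
  have h1 : (inner ℂ u u : ℂ) = ∫ t, (inner ℂ (u t) (u t) : ℂ) := L2.inner_def u u
  rw [inner_self_eq_norm_sq_to_K] at h1
  have h2 : ∀ t, (inner ℂ (u t) (u t) : ℂ) = ((‖u t‖ ^ 2 : ℝ) : ℂ) := by
    intro t
    rw [inner_self_eq_norm_sq_to_K]
    simp
  simp only [h2] at h1
  rw [integral_complex_ofReal] at h1
  have h3 := congrArg Complex.re h1
  simp only [Complex.coe_algebraMap, Complex.ofReal_re, ← Complex.ofReal_pow] at h3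
  exact h3

theorem norm_sq_X {n : ℕ} (w : X n) : ‖w‖ ^ 2 = ∑ i, ∫ t, ‖w i t‖ ^ 2 := by
  rw [PiLp.norm_sq_eq_of_L2]
  apply Finset.sum_congr rfl
  intro i _
  exact norm_sq_L _

theorem op_ae (hY : TaskYoung) {n : ℕ} (g : Ker n)
    (hg : ∀ i j, Integrable (fun t => g t i j)) (u : X n) (i : Fin n) :
    (op hY g hg u) i =ᵐ[volume] fun t => u i t + ∑ j, ∫ s, g s i j * u j (t - s) := by
  rw [op_apply]
  have h1 : ∀ᵐ t, ∀ j, cv hY (fun t => g t i j) (hg i j) (u j) t
      = ∫ s, g s i j * u j (t - s) := by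
    rw [ae_all_iff]
    intro j
    exact cv_ae hY _ (hg i j) (u j)
  have h2 := Lp.coeFn_add (u i) (∑ j, cv hY (fun t => g t i j) (hg i j) (u j))
  have h3 : ⇑(∑ j, cv hY (fun t => g t i j) (hg i j) (u j)) =ᵐ[volume]
      fun t => ∑ j, cv hY (fun t => g t i j) (hg i j) (u j) t :=
    Lp.coeFn_fun_finsetSum _ _
  filter_upwards [h1, h2, h3] with t a1 a2 a3
  rw [a2, Pi.add_apply, a3]
  simp only [a1]

theorem inner_op (hY : TaskYoung) {n : ℕ} (g : Ker n)
    (hg : ∀ i j, Integrable (fun t => g t i j)) (w : X n) :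
    (inner ℂ w (op hY g hg w) : ℂ) =
      ∑ i, ∫ t, conj (w i t) * (w i t + ∑ j, ∫ s, g s i j * w j (t - s)) := by
  rw [PiLp.inner_apply]
  apply Finset.sum_congr rfl
  intro i _
  rw [L2.inner_def]
  apply integral_congr_ae
  filter_upwards [op_ae hY g hg w i] with t a1
  rw [a1, RCLike.inner_apply, mul_comm]

theorem inner_op_sub (hY : TaskYoung) {n : ℕ} (g g' : Ker n)
    (hg : ∀ i j, Integrable (fun t => g t i j)) (hg' : ∀ i j, Integrable (fun t => g' t i j))
    (w : X n) : (inner ℂ w (op hY g' hg' w) : ℂ).re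
      - (∑ i, ∑ j, ∫ s, ‖g s i j - g' s i j‖) * ‖w‖ ^ 2 ≤ (inner ℂ w (op hY g hg w) : ℂ).re := by
  have h1 : (inner ℂ w (op hY g hg w) : ℂ) = inner ℂ w (op hY g' hg' w) +
      ∑ i, ∑ j, inner ℂ (w i) (cv hY (fun s => g s i j - g' s i j)
        ((hg i j).sub (hg' i j)) (w j)) := by
    rw [PiLp.inner_apply, PiLp.inner_apply, ← Finset.sum_add_distrib]
    apply Finset.sum_congr rfl
    intro i _
    rw [op_apply, op_apply, inner_add_right, inner_add_right, inner_sum, inner_sum, add_assoc,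
      ← Finset.sum_add_distrib]
    congr 1
    apply Finset.sum_congr rfl
    intro j _
    rw [← inner_add_right, ← cv_sub hY (fun t => g t i j) (fun t => g' t i j) (hg i j) (hg' i j)]
  have h2 : ‖∑ i, ∑ j, (inner ℂ (w i) (cv hY (fun s => g s i j - g' s i j)
        ((hg i j).sub (hg' i j)) (w j)) : ℂ)‖ ≤
      (∑ i, ∑ j, ∫ s, ‖g s i j - g' s i j‖) * ‖w‖ ^ 2 := by
    refine (norm_sum_le _ _).trans ?_
    rw [Finset.sum_mul]
    apply Finset.sum_le_sum
    intro i _
    refine (norm_sum_le _ _).trans ?_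
    rw [Finset.sum_mul]
    apply Finset.sum_le_sum
    intro j _
    refine (norm_inner_le_norm _ _).trans ?_
    have h3 := cv_norm hY (fun s => g s i j - g' s i j) ((hg i j).sub (hg' i j)) (w j)
    have h4 : ‖w i‖ ≤ ‖w‖ := PiLp.norm_apply_le w i
    have h5 : ‖w j‖ ≤ ‖w‖ := PiLp.norm_apply_le w j
    have h6 : 0 ≤ ∫ s, ‖g s i j - g' s i j‖ := integral_nonneg fun _ => norm_nonneg _
    calc ‖w i‖ * ‖cv hY (fun s => g s i j - g' s i j) ((hg i j).sub (hg' i j)) (w j)‖
        ≤ ‖w‖ * ((∫ s, ‖g s i j - g' s i j‖) * ‖w‖) := by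
          apply mul_le_mul h4 _ (norm_nonneg _) (norm_nonneg _)
          exact h3.trans (mul_le_mul_of_nonneg_left h5 h6)
      _ = (∫ s, ‖g s i j - g' s i j‖) * ‖w‖ ^ 2 := by ring
  rw [h1, Complex.add_re]
  have h7 := (Complex.abs_re_le_norm (∑ i, ∑ j, (inner ℂ (w i) (cv hY (fun s => g s i j - g' s i j)
        ((hg i j).sub (hg' i j)) (w j)) : ℂ))).trans h2
  have h8 := (abs_le.1 h7).1
  linarith

/-! ## Weights -/

theorem exp_est {ε σ s : ℝ} (hε : 0 < ε) (hσ : 0 < σ) (h : ε ≤ σ) :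
    |Real.exp (ε * s) - 1| ≤ ε / σ * Real.exp (σ * |s|) := by
  have h1 : Real.exp (ε * |s|) ≤ ε / σ * Real.exp (σ * |s|) + (1 - ε / σ) := by
    have h2 := convexOn_exp.2 (mem_univ (σ * |s|)) (mem_univ 0)
      (by positivity : (0 : ℝ) ≤ ε / σ)
      (by rw [sub_nonneg, div_le_one hσ]; exact h : (0 : ℝ) ≤ 1 - ε / σ) (by ring)
    simp only [smul_eq_mul, mul_zero, add_zero, Real.exp_zero, mul_one] at h2
    have h3 : ε / σ * (σ * |s|) = ε * |s| := by field_simp
    rwa [h3] at h2
  have h4 : 0 < ε / σ := by positivity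
  have h5 : |Real.exp (ε * s) - 1| ≤ Real.exp (ε * |s|) - 1 := by
    rcases le_total 0 s with hs | hs
    · rw [abs_of_nonneg hs, abs_of_nonneg]
      have := Real.one_le_exp (x := ε * s) (by positivity)
      linarith
    · rw [abs_of_nonpos hs, abs_of_nonpos]
      · have h6 : Real.exp (ε * s) * Real.exp (ε * -s) = 1 := by
          rw [← Real.exp_add]
          simp
        have h7 := Real.exp_pos (ε * s)
        have h8 := Real.exp_pos (ε * -s)
        nlinarith [sq_nonneg (Real.exp (ε * s) - Real.exp (ε * -s)),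
          sq_nonneg (Real.exp (ε * s) + Real.exp (ε * -s) - 2)]
      · have : Real.exp (ε * s) ≤ 1 := by
          rw [Real.exp_le_one_iff]
          exact mul_nonpos_of_nonneg_of_nonpos hε.le hs
        linarith
  linarith

theorem wt_ne (σ t : ℝ) : wt σ t ≠ 0 := by
  unfold wt
  exact_mod_cast (Real.exp_pos _).ne'

theorem wt_cont (σ : ℝ) : Continuous (wt σ) := by
  unfold wt
  fun_prop

theorem wt_norm (σ t : ℝ) : ‖wt σ t‖ = Real.exp (σ * |t|) := by
  unfold wt
  rw [Complex.norm_real, Real.norm_of_nonneg (Real.exp_pos _).le]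

theorem intg_mul {σ : ℝ} {f : ℝ → ℂ} (hf : Integrable (fun t => f t * wt σ t)) {φ : ℝ → ℂ}
    (hφ : Continuous φ) (hb : ∀ t, ‖φ t‖ ≤ Real.exp (σ * |t|)) :
    Integrable (fun t => f t * φ t) := by
  have h1 : (fun t => f t * φ t) = fun t => (f t * wt σ t) * (φ t * (wt σ t)⁻¹) := by
    ext t
    have := wt_ne σ t
    field_simp
  rw [h1]
  apply hf.mul_bdd (c := 1)
  · apply Continuous.aestronglyMeasurable
    exact hφ.mul ((wt_cont σ).inv₀ (wt_ne σ))
  · filter_upwards with t
    rw [norm_mul, norm_inv, wt_norm, ← div_eq_mul_inv, div_le_one (Real.exp_pos _)]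
    exact hb t

theorem taskL2 : TaskL2 := by
  intro hY hPos n σ c0 g hσ hc0 hg hC
  have hg0 : ∀ i j, Integrable (fun t => g t i j) := by
    intro i j
    have := intg_mul (hg i j) (φ := fun _ => 1) continuous_const (by
      intro t
      simp only [norm_one]
      exact Real.one_le_exp (by positivity))
    simpa using this
  set G : ℝ := ∑ i, ∑ j, ∫ s, ‖g s i j‖ * Real.exp (σ * |s|) with hG
  have hG0 : 0 ≤ G := by
    apply Finset.sum_nonneg
    intro i _
    apply Finset.sum_nonneg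
    intro j _
    exact integral_nonneg fun _ => by positivity
  refine ⟨min σ (σ * c0 / (2 * (G + 1))), by positivity, min_le_left _ _, ?_⟩
  intro ε hε hε0 r hr
  have hεσ : ε ≤ σ := hε0.trans (min_le_left _ _)
  have hεG : ε / σ * G ≤ c0 / 2 := by
    have h1 : ε ≤ σ * c0 / (2 * (G + 1)) := hε0.trans (min_le_right _ _)
    rw [le_div_iff₀ (by positivity)] at h1
    rw [div_mul_eq_mul_div, div_le_iff₀ hσ]
    nlinarith
  let e : ℝ → ℂ := fun t => ((Real.exp (ε * t) : ℝ) : ℂ)
  have he : Continuous e := by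
    simp only [e]
    fun_prop
  have hen : ∀ t, ‖e t‖ = Real.exp (ε * t) := by
    intro t
    simp only [e]
    rw [Complex.norm_real, Real.norm_of_nonneg (Real.exp_pos _).le]
  have heb : ∀ t, ‖e t‖ ≤ Real.exp (σ * |t|) := by
    intro t
    rw [hen, Real.exp_le_exp]
    calc ε * t ≤ ε * |t| := mul_le_mul_of_nonneg_left (le_abs_self t) hε.le
      _ ≤ σ * |t| := mul_le_mul_of_nonneg_right hεσ (abs_nonneg t)
  let k : Ker n := fun s => Matrix.of fun i j => g s i j * e s
  have hk : ∀ i j, Integrable (fun t => k t i j) := fun i j => intg_mul (hg i j) he heb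
  have hkg : (∑ i, ∑ j, ∫ s, ‖k s i j - g s i j‖) ≤ c0 / 2 := by
    refine le_trans ?_ hεG
    rw [hG, Finset.mul_sum]
    apply Finset.sum_le_sum
    intro i _
    rw [Finset.mul_sum]
    apply Finset.sum_le_sum
    intro j _
    rw [← integral_const_mul]
    apply integral_mono
    · exact ((hk i j).sub (hg0 i j)).norm
    · apply Integrable.const_mul
      have := (hg i j).norm
      simpa only [norm_mul, wt_norm] using this
    · intro s
      have h1 : k s i j - g s i j = g s i j * (e s - 1) := by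
        simp only [k, Matrix.of_apply]
        ring
      simp only [h1, norm_mul]
      have h2 : ‖e s - 1‖ = |Real.exp (ε * s) - 1| := by
        have : e s - 1 = ((Real.exp (ε * s) - 1 : ℝ) : ℂ) := by
          simp only [e]
          push_cast
          ring
        rw [this, Complex.norm_real, Real.norm_eq_abs]
      rw [h2]
      have h3 := exp_est (s := s) hε hσ hεσ
      calc ‖g s i j‖ * |Real.exp (ε * s) - 1| ≤ ‖g s i j‖ * (ε / σ * Real.exp (σ * |s|)) :=
            mul_le_mul_of_nonneg_left h3 (norm_nonneg _)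
        _ = ε / σ * (‖g s i j‖ * Real.exp (σ * |s|)) := by ring
  have hcoer : ∀ w : X n, c0 / 2 * ‖w‖ ^ 2 ≤ (inner ℂ w (op hY k hk w) : ℂ).re := by
    intro w
    have h1 := inner_op_sub hY k g hk hg0 w
    have h2 := hPos n c0 g hg0 hC (fun t i => w i t) (fun i => Lp.memLp (w i))
    rw [← norm_sq_X, ← inner_op hY g hg0 w] at h2
    have h3 := mul_le_mul_of_nonneg_right hkg (sq_nonneg ‖w‖)
    linarith
  let f : X n := WithLp.toLp 2 (fun i => (hr i).toLp _)
  obtain ⟨u, hu, hTu⟩ := coercive_solve (op hY k hk) (prX n) (prX_norm n) (prX_prX n) (c0 / 2)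
    (by positivity) hcoer f
  let v : Fin n → ℝ → ℂ := fun i => (Ici (0 : ℝ)).indicator (u i)
  have huv : ∀ i, (u i : ℝ → ℂ) =ᵐ[volume] v i := by
    intro i
    have h1 : pr (u i) = u i := by
      rw [← prX_apply, hu]
    have h2 := pr_ae (u i)
    rw [h1] at h2
    exact h2
  have hee : ∀ a b : ℝ, e (a + b) = e a * e b := by
    intro a b
    simp only [e]
    rw [mul_add, Real.exp_add]
    push_cast
    rfl
  have he0 : ∀ a, e a ≠ 0 := by
    intro a h
    have := hen a
    rw [h, norm_zero] at this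
    exact (Real.exp_pos _).ne this
  refine ⟨fun t i => v i t * (e t)⁻¹, ?_, ?_, ?_⟩
  · intro i
    have h1 : (fun t => v i t * (e t)⁻¹ * ((Real.exp (ε * t) : ℝ) : ℂ)) = v i := by
      ext t
      have := he0 t
      change v i t * (e t)⁻¹ * e t = v i t
      field_simp
    simp only [h1]
    exact (Lp.memLp (u i)).indicator measurableSet_Ici
  · intro t ht
    funext i
    simp [v, ht]
  · have h1 : ∀ᵐ t, ∀ i, (op hY k hk u) i t = u i t + ∑ j, ∫ s, k s i j * u j (t - s) := by
      rw [ae_all_iff]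
      intro i
      exact op_ae hY k hk u i
    have h2 : ∀ᵐ t, ∀ i, (0 : ℝ) < t → (op hY k hk u) i t = r t i * e t := by
      rw [ae_all_iff]
      intro i
      have h3 : pr ((op hY k hk u) i) = pr (f i) := by
        rw [← prX_apply, ← prX_apply, hTu]
      have h4 := pr_ae ((op hY k hk u) i)
      have h5 := pr_ae (f i)
      rw [h3] at h4
      have h6 : (f i : ℝ → ℂ) =ᵐ[volume] fun t => r t i * e t := (hr i).coeFn_toLp
      filter_upwards [h4, h5, h6] with t a4 a5 a6 ht
      have htm : t ∈ Ici (0 : ℝ) := ht.le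
      rw [indicator_of_mem htm] at a4 a5
      rw [← a4, a5, a6]
    have h3 : ∀ᵐ t, ∀ i, u i t = v i t := by
      rw [ae_all_iff]
      exact huv
    filter_upwards [h1, h2, h3] with t a1 a2 a3 ht i
    have a4 := a2 i ht
    rw [a1 i, a3 i] at a4
    have a5 : ∀ j, ∫ s, g s i j * (v j (t - s) * (e (t - s))⁻¹)
        = (e t)⁻¹ * ∫ s, k s i j * u j (t - s) := by
      intro j
      rw [conv_congr _ (huv j) t, ← integral_const_mul]
      congr 1
      ext s
      simp only [k, Matrix.of_apply]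
      have b1 : e t = e (t - s) * e s := by
        rw [← hee]
        congr 1
        ring
      rw [b1]
      have b2 := he0 (t - s)
      have b3 := he0 s
      field_simp
    simp only [a5]
    rw [← Finset.mul_sum]
    have b4 := he0 t
    field_simp
    rw [a4]
    ring

end Pool.Agent.H3R3.SF
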